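import Pool.Agent.Lib.MP_fbfbfd_pr.Main

open MeasureTheory ProbabilityTheory

namespace Pool.Agent.Results.MP_fbfbfd_pr.LacunaryWalk

open Pool.Agent.Lib.MP_fbfbfd_pr

/-- In every dimension there is a transient random walk whose range has, almost surely, lower
Hausdorff dimension 1 and lower Minkowski dimension 0, while `λ_X = 0`. -/
theorem result (d : ℕ) (hd : 1 ≤ d) :
    ∃ (Ω : Type) (_ : MeasurableSpace Ω) (P : Measure Ω) (_ : IsProbabilityMeasure P)
      (ξ : ℕ → Ω → Fin d → ℤ),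
      (∀ n, Measurable (ξ n)) ∧ iIndepFun ξ P ∧ (∀ n, IdentDistrib (ξ n) (ξ 0) P P) ∧
      (∀ x, occ P ξ {x} < ⊤) ∧ index P ξ = 0 ∧
      ∀ᵐ ω ∂P, lowerDimH (Set.range fun n => walk ξ n ω) = 1 ∧
        lowerDimM (Set.range fun n => walk ξ n ω) = 0 :=
  ⟨ℕ → ℕ, inferInstance, PP, inferInstance, step d, measurable_step d, indep_step d, ident_step d,
    transient hd, index_eq hd, (ae_dimH hd).and (ae_dimM hd)⟩

end Pool.Agent.Results.MP_fbfbfd_pr.LacunaryWalk
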